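import Pool.Agent.Lead.LipEnds

namespace Pool.Agent.Results.MP_469b0e_pr.Ends

open Pool.Agent.Lead.Lip

theorem result (V : Type) (G : SimpleGraph V) [G.LocallyFinite] (hc : G.Connected)
    (K : Finset V) (C D : G.ComponentCompl K) (hCD : C ≠ D) (hC : C.supp.Infinite)
    (hD : D.supp.Infinite) :
    ∃ f : V → ℝ, Harmonic G f ∧ (∀ x y, |f x - f y| ≤ G.dist x y) ∧ ∃ x y, f x ≠ f y :=
  two_ends hc K C.supp (fun a ha b h hb => SimpleGraph.ComponentCompl.mem_of_adj a b ha hb h) hC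
    (hD.mono (Set.disjoint_right.1 (SimpleGraph.ComponentCompl.pairwise_disjoint hCD)))

end Pool.Agent.Results.MP_469b0e_pr.Ends
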