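import Pool.Agent.Lead.LipAnti

namespace Pool.Agent.Results.MP_469b0e_pr.Transient

open Pool.Agent.Lead.Lip

theorem result : ∃ (V : Type) (G : SimpleGraph V) (_ : G.LocallyFinite),
    Infinite V ∧ G.Connected ∧ (∃ o, Transient G o) ∧
      ∀ f : V → ℝ, Harmonic G f → ∀ x y, f x = f y :=
  ⟨AV, AG, lf, inferInstance, AG_conn, ⟨_, AG_trans⟩, AG_const⟩

end Pool.Agent.Results.MP_469b0e_pr.Transient
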